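import Pool.Agent.Lib_helper32.FL.Pt

set_option autoImplicit false

/-!
MP_de0e04_co, block FL1: an open set of centres, by Helly's theorem.
-/

namespace Pool.Agent.KAL
open Finset Module

section fl1
variable {P : Type*} [DecidableEq P] {W : Type*} [AddCommGroup W] [Module ℝ W]
  [FiniteDimensional ℝ W]

/-- a set of at least `finrank` rows spans -/
theorem fl1_span (p : P → Dual ℝ W) (R : Finset P) (hgp : GPos p R) (A : Finset P) (hA : A ⊆ R)
    (hc : finrank ℝ W ≤ A.card) (g : Dual ℝ W) : ∃ c : P → ℝ, g = ∑ x ∈ A, c x • p x := by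
  classical
  obtain ⟨B, hBA, hB⟩ := Finset.exists_subset_card_eq hc
  have hf : finrank ℝ (Dual ℝ W) = finrank ℝ W := Subspace.dual_finrank_eq
  have hli : LinearIndependent ℝ (fun x : B => p x.1) := by
    rw [Fintype.linearIndependent_iff]
    intro c hsum x
    have h1 := hgp B (hBA.trans hA) (by rw [hf, hB]) (fun y => if h : y ∈ B then c ⟨y, h⟩ else 0) (by
      rw [← Finset.sum_attach]
      rw [← hsum]
      apply Finset.sum_congr rfl
      intro y _
      simp) x.1 x.2
    simpa using h1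
  have hsp := hli.span_eq_top_of_card_eq_finrank' (by rw [hf, Fintype.card_coe, hB])
  have hg : g ∈ Submodule.span ℝ (Set.range (fun x : B => p x.1)) := by rw [hsp]; trivial
  rw [Submodule.mem_span_range_iff_exists_fun] at hg
  obtain ⟨c, hc'⟩ := hg
  refine ⟨fun y => if h : y ∈ B then c ⟨y, h⟩ else 0, ?_⟩
  rw [← hc', ← Finset.sum_subset hBA]
  · rw [← Finset.sum_attach B]
    apply Finset.sum_congr rfl
    intro y _
    simp
  · intro y _ hy
    simp only [dif_neg hy, zero_smul]

/-- the open cone -/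
def fl1Cone (p : P → Dual ℝ W) (A : Finset P) : Set (Dual ℝ W) :=
  {g | ∃ b : P → ℝ, (∀ x ∈ A, 0 < b x) ∧ g = ∑ x ∈ A, b x • p x}

theorem fl1_convex (p : P → Dual ℝ W) (A : Finset P) : Convex ℝ (fl1Cone p A) := by
  rintro g ⟨b, hb, rfl⟩ g' ⟨b', hb', rfl⟩ s t hs ht hst
  refine ⟨fun x => s * b x + t * b' x, fun x hx => ?_, ?_⟩
  · have h1 := hb x hx
    have h2 := hb' x hx
    rcases hs.eq_or_lt with h | h
    · have ht1 : t = 1 := by linarith
      simp only [← h, ht1]
      linarith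
    · have h3 : 0 < s * b x := mul_pos h h1
      have h4 : 0 ≤ t * b' x := mul_nonneg ht h2.le
      linarith
  · rw [Finset.smul_sum, Finset.smul_sum, ← Finset.sum_add_distrib]
    apply Finset.sum_congr rfl
    intro x _
    rw [add_smul, mul_smul, mul_smul]

/-- the open cone is open -/
theorem fl1_open (p : P → Dual ℝ W) (R : Finset P) (hgp : GPos p R) (A : Finset P) (hA : A ⊆ R)
    (hc : finrank ℝ W ≤ A.card) (g g' : Dual ℝ W) (hg : g ∈ fl1Cone p A) :
    ∀ᶠ t : ℝ in nhds 0, g + t • g' ∈ fl1Cone p A := by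
  obtain ⟨b, hb, hgb⟩ := hg
  obtain ⟨c, hgc⟩ := fl1_span p R hgp A hA hc g'
  have h1 : ∀ᶠ t : ℝ in nhds 0, ∀ x ∈ A, 0 < b x + t * c x := by
    rw [Filter.eventually_all_finset]
    intro x hx
    have hcont : Continuous (fun t : ℝ => b x + t * c x) := by fun_prop
    have h2 : (0 : ℝ) < b x + 0 * c x := by
      rw [zero_mul, add_zero]
      exact hb x hx
    exact hcont.continuousAt.eventually_const_lt h2
  filter_upwards [h1] with t ht
  refine ⟨fun x => b x + t * c x, ht, ?_⟩
  rw [hgb, hgc, Finset.smul_sum, ← Finset.sum_add_distrib]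
  apply Finset.sum_congr rfl
  intro x _
  rw [add_smul, mul_smul]

/-- the sum over a large subset lies in the open cone -/
theorem fl1_sub (p : P → Dual ℝ W) (R : Finset P) (hgp : GPos p R) (A B : Finset P) (hA : A ⊆ R)
    (hBA : B ⊆ A) (hc : finrank ℝ W ≤ B.card) : ∑ x ∈ B, p x ∈ fl1Cone p A := by
  classical
  obtain ⟨c, hgc⟩ := fl1_span p R hgp B (hBA.trans hA) hc (∑ x ∈ A \ B, p x)
  have h1 : ∀ᶠ t : ℝ in nhds 0, ∀ x ∈ B, 0 < 1 - t * c x := by
    rw [Filter.eventually_all_finset]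
    intro x hx
    have hcont : Continuous (fun t : ℝ => 1 - t * c x) := by fun_prop
    have h2 : (0 : ℝ) < 1 - 0 * c x := by norm_num
    exact hcont.continuousAt.eventually_const_lt h2
  obtain ⟨ε, hε, h2⟩ := Metric.eventually_nhds_iff.mp h1
  have h3 : ∀ x ∈ B, 0 < 1 - ε / 2 * c x := by
    apply h2
    rw [Real.dist_eq, sub_zero, abs_of_pos (by linarith)]
    linarith
  refine ⟨fun x => if x ∈ B then 1 - ε / 2 * c x else ε / 2, fun x hx => ?_, ?_⟩
  · by_cases h : x ∈ B
    · simp only [h, if_true]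
      exact h3 x h
    · simp only [h, if_false]
      linarith
  · rw [← Finset.sum_sdiff hBA]
    have e1 : ∑ x ∈ A \ B, (if x ∈ B then 1 - ε / 2 * c x else ε / 2) • p x =
        (ε / 2) • ∑ x ∈ A \ B, p x := by
      rw [Finset.smul_sum]
      apply Finset.sum_congr rfl
      intro x hx
      rw [if_neg (Finset.mem_sdiff.mp hx).2]
    have e2 : ∑ x ∈ B, (if x ∈ B then 1 - ε / 2 * c x else ε / 2) • p x =
        ∑ x ∈ B, p x - (ε / 2) • ∑ x ∈ B, c x • p x := by
      rw [Finset.smul_sum, ← Finset.sum_sub_distrib]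
      apply Finset.sum_congr rfl
      intro x hx
      rw [if_pos hx]
      module
    rw [e1, e2, ← hgc]
    abel

/-- depth from the closed cones -/
theorem fl1_depth (p : P → Dual ℝ W) (R : Finset P) (t : ℕ) (g : Dual ℝ W)
    (hg : ∀ A ⊆ R, R.card ≤ A.card + t → g ∈ fl1Cone p A) (l : W) (hl : 0 < g l) :
    t + 1 ≤ (R.filter (fun x => 0 < p x l)).card := by
  classical
  by_contra hcon
  have h1 := Finset.card_filter_add_card_filter_not (s := R) (fun x => 0 < p x l)
  obtain ⟨b, hb, hgb⟩ := hg (R.filter (fun x => ¬ 0 < p x l)) (Finset.filter_subset _ _) (by omega)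
  have h2 : g l ≤ 0 := by
    rw [hgb, LinearMap.sum_apply]
    apply Finset.sum_nonpos
    intro x hx
    rw [LinearMap.smul_apply, smul_eq_mul]
    have h3 := (Finset.mem_filter.mp hx).2
    exact mul_nonpos_of_nonneg_of_nonpos (hb x hx).le (not_lt.mp h3)
  linarith

/-- a vector outside the spans of all small subsets -/
theorem fl1_generic (p : P → Dual ℝ W) (R : Finset P) :
    ∃ g' : Dual ℝ W, ∀ T ⊆ R, T.card < finrank ℝ W →
      g' ∉ Submodule.span ℝ (p '' (T : Set P)) := by
  classical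
  have hf : finrank ℝ (Dual ℝ W) = finrank ℝ W := Subspace.dual_finrank_eq
  set s : Finset (Submodule ℝ (Dual ℝ W)) :=
    (R.powerset.filter (fun T => T.card < finrank ℝ W)).image
      (fun T : Finset P => Submodule.span ℝ (p '' (T : Set P))) with hs
  have htop : ⊤ ∉ s := by
    intro h
    rw [hs, Finset.mem_image] at h
    obtain ⟨T, hT, h1⟩ := h
    rw [Finset.mem_filter] at hT
    have h2 := finrank_span_finset_le_card (R := ℝ) (T.image p)
    have h3 : (T.image p : Finset (Dual ℝ W)).card ≤ T.card := Finset.card_image_le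
    unfold Set.finrank at h2
    rw [Finset.coe_image, h1, finrank_top, hf] at h2
    omega
  have h := Subspace.biUnion_ne_univ_of_top_notMem htop
  rw [Set.ne_univ_iff_exists_notMem] at h
  obtain ⟨g', hg'⟩ := h
  refine ⟨g', fun T hT hTc hmem => hg' ?_⟩
  rw [Set.mem_iUnion₂]
  refine ⟨_, ?_, hmem⟩
  rw [hs, Finset.mem_image]
  exact ⟨T, Finset.mem_filter.mpr ⟨Finset.mem_powerset.mpr hT, hTc⟩, rfl⟩

/-- FL1: an open set of centres (Helly) -/
theorem centre_pr (p : P → Dual ℝ W) (R : Finset P) (hgp : GPos p R) (hW : 1 ≤ finrank ℝ W) :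
    ∃ g : Dual ℝ W,
      (∀ T ⊆ R, T.card < finrank ℝ W → ∀ (a : ℝ) (b : P → ℝ),
        a • g + ∑ x ∈ T, b x • p x = 0 → a = 0) ∧
      (∀ g' : Dual ℝ W, ∃ ε > (0 : ℝ), ∀ t : ℝ, |t| < ε → ∀ l : W, 0 < (g + t • g') l →
        (R.card + 1) / (finrank ℝ W + 1) ≤ (R.filter (fun x => 0 < p x l)).card) := by
  classical
  set k := finrank ℝ W with hk
  have hf : finrank ℝ (Dual ℝ W) = k := Subspace.dual_finrank_eq
  set u := (R.card + 1) / (k + 1) with hu
  have hu1 : u * (k + 1) ≤ R.card + 1 := Nat.div_mul_le_self _ _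
  -- the family of large subsets
  set s : Finset (Finset P) := R.powerset.filter (fun A => 1 ≤ u ∧ R.card ≤ A.card + (u - 1)) with hs
  have hsA : ∀ A ∈ s, A ⊆ R ∧ k ≤ A.card := by
    intro A hA
    rw [hs, Finset.mem_filter, Finset.mem_powerset] at hA
    refine ⟨hA.1, ?_⟩
    obtain ⟨v, hv⟩ : ∃ v, u = v + 1 := ⟨u - 1, by omega⟩
    rw [hv] at hu1 hA
    have h1 : v ≤ v * k := Nat.le_mul_of_pos_right v hW
    have h2 : (v + 1) * (k + 1) = v * k + v + k + 1 := by ring
    omega
  have hne : (⋂ A ∈ s, fl1Cone p A).Nonempty := by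
    apply Convex.helly_theorem' (𝕜 := ℝ)
    · intro A _
      exact fl1_convex p A
    · intro I hI hIc
      rw [hf] at hIc
      set B := R.filter (fun x => ∀ A ∈ I, x ∈ A) with hB
      have hcard : R.card ≤ B.card + I.card * (u - 1) := by
        have h1 : R \ B ⊆ I.biUnion (fun A => R \ A) := by
          intro x hx
          rw [Finset.mem_sdiff, hB, Finset.mem_filter] at hx
          obtain ⟨hxR, hx2⟩ := hx
          have h2 : ∃ A ∈ I, x ∉ A := by
            by_contra hno
            push Not at hno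
            exact hx2 ⟨hxR, hno⟩
          obtain ⟨A, hA, hxA⟩ := h2
          rw [Finset.mem_biUnion]
          exact ⟨A, hA, Finset.mem_sdiff.mpr ⟨hxR, hxA⟩⟩
        have h2 : (R \ B).card ≤ I.card * (u - 1) := by
          refine (Finset.card_le_card h1).trans (Finset.card_biUnion_le_card_mul _ _ _ ?_)
          intro A hA
          have h3 := hI hA
          rw [hs, Finset.mem_filter, Finset.mem_powerset] at h3
          have h4 := Finset.card_sdiff_add_card_eq_card h3.1
          omega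
        have h3 : B ⊆ R := Finset.filter_subset _ _
        have h4 := Finset.card_sdiff_add_card_eq_card h3
        omega
      rcases I.eq_empty_or_nonempty with hemp | ⟨A₀, hA₀⟩
      · rw [hemp]
        simp
      · have hu0 : 1 ≤ u := by
          have h3 := hI hA₀
          rw [hs, Finset.mem_filter] at h3
          exact h3.2.1
        have hBk : k ≤ B.card := by
          obtain ⟨v, hv⟩ : ∃ v, u = v + 1 := ⟨u - 1, by omega⟩
          rw [hv] at hu1 hcard
          have h5 : I.card * v ≤ (k + 1) * v := Nat.mul_le_mul_right v hIc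
          have h6 : (v + 1) * (k + 1) = (k + 1) * v + k + 1 := by ring
          simp only [Nat.add_sub_cancel] at hcard
          omega
        refine ⟨∑ x ∈ B, p x, ?_⟩
        rw [Set.mem_iInter₂]
        intro A hA
        have hBA : B ⊆ A := by
          intro x hx
          rw [hB, Finset.mem_filter] at hx
          exact hx.2 A hA
        exact fl1_sub p R hgp A B (hsA A (hI hA)).1 hBA hBk
  obtain ⟨g₀, hg₀⟩ := hne
  rw [Set.mem_iInter₂] at hg₀
  -- openness
  have hopen : ∀ g : Dual ℝ W, (∀ A ∈ s, g ∈ fl1Cone p A) → ∀ g' : Dual ℝ W,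
      ∃ ε > (0 : ℝ), ∀ t : ℝ, |t| < ε → ∀ A ∈ s, g + t • g' ∈ fl1Cone p A := by
    intro g hg g'
    have h1 : ∀ᶠ t : ℝ in nhds 0, ∀ A ∈ s, g + t • g' ∈ fl1Cone p A := by
      rw [Filter.eventually_all_finset]
      intro A hA
      exact fl1_open p R hgp A (hsA A hA).1 (hsA A hA).2 g g' (hg A hA)
    obtain ⟨ε, hε, h2⟩ := Metric.eventually_nhds_iff.mp h1
    refine ⟨ε, hε, fun t ht => h2 ?_⟩
    rw [Real.dist_eq, sub_zero]
    exact ht
  -- a generic direction
  obtain ⟨g₁, hg₁⟩ := fl1_generic p R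
  obtain ⟨ε, hε, hε2⟩ := hopen g₀ hg₀ g₁
  set bad : Set ℝ := ⋃ T ∈ R.powerset.filter (fun T => T.card < k),
    {t : ℝ | g₀ + t • g₁ ∈ Submodule.span ℝ (p '' (T : Set P))}
    with hbad
  have hbadf : bad.Finite := by
    apply Set.Finite.biUnion (Finset.finite_toSet _)
    intro T hT
    have hT' := Finset.mem_filter.mp (Finset.mem_coe.mp hT)
    apply Set.Subsingleton.finite
    intro t₁ h₁ t₂ h₂
    by_contra hne
    have h3 : (t₁ - t₂) • g₁ ∈ Submodule.span ℝ (p '' (T : Set P)) := by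
      have h4 := Submodule.sub_mem _ (show g₀ + t₁ • g₁ ∈ Submodule.span ℝ (p '' (T : Set P)) from h₁)
        (show g₀ + t₂ • g₁ ∈ Submodule.span ℝ (p '' (T : Set P)) from h₂)
      have h5 : (g₀ + t₁ • g₁) - (g₀ + t₂ • g₁) = (t₁ - t₂) • g₁ := by
        module
      rwa [h5] at h4
    have h6 : t₁ - t₂ ≠ 0 := sub_ne_zero.mpr hne
    rw [Submodule.smul_mem_iff _ h6] at h3
    exact hg₁ T (Finset.mem_powerset.mp hT'.1) hT'.2 h3
  obtain ⟨t₀, ht₀, ht₀b⟩ := (Set.Ioo_infinite hε).exists_notMem_finite hbadf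
  have hgs : ∀ A ∈ s, g₀ + t₀ • g₁ ∈ fl1Cone p A := hε2 t₀ (by
    rw [abs_of_pos ht₀.1]
    exact ht₀.2)
  refine ⟨g₀ + t₀ • g₁, ?_, ?_⟩
  · intro T hT hTc a b hab
    by_contra ha
    apply ht₀b
    rw [hbad, Set.mem_iUnion₂]
    refine ⟨T, Finset.mem_filter.mpr ⟨Finset.mem_powerset.mpr hT, hTc⟩, ?_⟩
    show g₀ + t₀ • g₁ ∈ Submodule.span ℝ (p '' (T : Set P))
    rw [← Submodule.smul_mem_iff _ ha]
    have h1 : a • (g₀ + t₀ • g₁) = -∑ x ∈ T, b x • p x := by
      rw [eq_neg_iff_add_eq_zero]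
      exact hab
    rw [h1]
    apply Submodule.neg_mem
    apply Submodule.sum_mem
    intro x hx
    apply Submodule.smul_mem
    apply Submodule.subset_span
    exact Set.mem_image_of_mem p (Finset.mem_coe.mpr hx)
  · intro g'
    obtain ⟨ε', hε', h2⟩ := hopen _ hgs g'
    refine ⟨ε', hε', fun t ht l hl => ?_⟩
    rcases Nat.eq_zero_or_pos u with h0 | hpos
    · rw [h0]
      exact Nat.zero_le _
    · have h3 := fl1_depth p R (u - 1) (g₀ + t₀ • g₁ + t • g') (fun A hA hAc => h2 t ht A (by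
        rw [hs, Finset.mem_filter, Finset.mem_powerset]
        exact ⟨hA, hpos, hAc⟩)) l hl
      omega

end fl1

end Pool.Agent.KAL
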